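import Pool.Agent.W593.Cusp.Complete

set_option autoImplicit false

/-!
# The dual K-geometric Koebe statement fails for surfaces with cusps

Let `K* < 0`.  The parabolic cylinder of curvature `K*` (the punctured unit disc with its complete
metric of curvature `K*`) is a complete surface of genus zero; all its closed geodesics have length
more than `2π`, because it has none.  But neither it nor any other surface with a cusp is isometric
to a smooth convex surface of `ℍ³` with its third fundamental form.

Idea.  Let `X` be the position and `N` the outward unit normal of a convex surface.  Along a unit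
speed geodesic of the third fundamental form one has `N'' + N = λ X` with `λ ≥ 0` by convexity.  As
`X` is timelike and future directed, Sturm comparison on an interval of length `ℓ < π` shows that
`N(ℓ) - cos ℓ N(0) - sin ℓ N'(0)` is zero or a future causal vector.  For a geodesic loop of length
`ℓ < π` this vector is `(1 - cos ℓ) N(0) - sin ℓ N'(0)`, which is spacelike and nonzero.  So the
third fundamental form of a convex surface has no geodesic loops of length less than `π`, whereas a
cusp has arbitrarily short geodesic loops.
-/

namespace Pool.Agent.Results.MP_bb4b37_gt.CuspsNotRealised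

open Pool.Agent.W593.Cusp

/-- **Disproof of Q1.**  Let `K* < 0`.  No planar Riemannian surface with a cusp is isometric to a
smooth surface in the boundary of a closed convex subset of `ℍ³` with its third fundamental form;
and there is a complete planar Riemannian surface of constant curvature `K*`, all of whose closed
geodesics have length more than `2π`, which has a cusp. -/
theorem result (Kstar : ℝ) (hK : Kstar < 0) :
    (∀ (U : Set ℂ) (ρ : ℂ → ℝ), IsPlanarSurface U ρ → HasCusp U ρ →
      ¬ IsThirdFundamentalForm U ρ) ∧
    ∃ (U : Set ℂ) (ρ : ℂ → ℝ), IsPlanarSurface U ρ ∧ IsCompleteSurface U ρ ∧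
      (∀ z ∈ U, curvature ρ z = Kstar) ∧
      (∀ (γ : ℝ → ℂ) (T : ℝ), IsClosedGeodesic U ρ γ T → 2 * Real.pi < length ρ γ 0 T) ∧
      HasCusp U ρ ∧ ¬ IsThirdFundamentalForm U ρ := by
  refine ⟨fun U ρ hU hc => not_third hU hc, PD, rho (1 / Real.sqrt (-Kstar)), ?_⟩
  have hc : 0 < 1 / Real.sqrt (-Kstar) := by
    have : 0 < Real.sqrt (-Kstar) := Real.sqrt_pos.2 (by linarith)
    positivity
  refine ⟨planar_PD hc, complete_PD hc, fun z hz => ?_, fun γ T h => ?_, hasCusp_PD hc,
    not_third (planar_PD hc) (hasCusp_PD hc)⟩
  · rw [curvature_rho hc hz, div_pow, one_pow, Real.sq_sqrt (by linarith)]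
    field_simp
  · exact (no_closed_geodesic hc h).elim

end Pool.Agent.Results.MP_bb4b37_gt.CuspsNotRealised
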